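import Pool.Agent.Y325.BG.Stm

/-!
# Project BG: mixed moments of free families, inner products by density
-/

set_option autoImplicit false

open Filter Topology

namespace Pool.Agent.Y473.BG.FM

open Pool.Agent.Y325.BG

universe u v

variable {𝓗 : Type v} [NormedAddCommGroup 𝓗] [InnerProductSpace ℂ 𝓗] [CompleteSpace 𝓗]

theorem tr_add (Ω : 𝓗) (x y : 𝓗 →L[ℂ] 𝓗) : tr Ω (x + y) = tr Ω x + tr Ω y := by
  unfold tr
  rw [ContinuousLinearMap.add_apply, inner_add_right]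

theorem tr_sub (Ω : 𝓗) (x y : 𝓗 →L[ℂ] 𝓗) : tr Ω (x - y) = tr Ω x - tr Ω y := by
  unfold tr
  rw [ContinuousLinearMap.sub_apply, inner_sub_right]

theorem tr_smul (Ω : 𝓗) (c : ℂ) (x : 𝓗 →L[ℂ] 𝓗) : tr Ω (c • x) = c * tr Ω x := by
  unfold tr
  rw [ContinuousLinearMap.smul_apply, inner_smul_right]

theorem tr_one {Ω : 𝓗} (h : ‖Ω‖ = 1) : tr Ω (1 : 𝓗 →L[ℂ] 𝓗) = 1 := by
  unfold tr
  rw [ContinuousLinearMap.one_apply, inner_self_eq_norm_sq_to_K, h]
  simp

/-- The abstract computation of the mixed moments. -/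
theorem moments {Ω : 𝓗} (h1 : tr Ω (1 : 𝓗 →L[ℂ] 𝓗) = 1) {A B : Subalgebra ℂ (𝓗 →L[ℂ] 𝓗)}
    (hF : Free Ω (A : Set (𝓗 →L[ℂ] 𝓗)) (B : Set (𝓗 →L[ℂ] 𝓗))) {a b a' b' : 𝓗 →L[ℂ] 𝓗}
    (ha : a ∈ A) (hb : b ∈ B) (ha' : a' ∈ A) (hb' : b' ∈ B) :
    tr Ω (a * b) = tr Ω a * tr Ω b ∧
    tr Ω (a * b * a' * b') = tr Ω (a * a') * tr Ω b * tr Ω b' + tr Ω a * tr Ω a' * tr Ω (b * b')
      - tr Ω a * tr Ω a' * tr Ω b * tr Ω b' := by
  -- centring
  have cen : ∀ (C : Subalgebra ℂ (𝓗 →L[ℂ] 𝓗)) (x : 𝓗 →L[ℂ] 𝓗), x ∈ C →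
      ∃ x0 ∈ C, tr Ω x0 = 0 ∧ x = x0 + tr Ω x • (1 : 𝓗 →L[ℂ] 𝓗) := by
    intro C x hx
    refine ⟨x - tr Ω x • (1 : 𝓗 →L[ℂ] 𝓗), C.sub_mem hx (C.smul_mem C.one_mem _), ?_, ?_⟩
    · rw [tr_sub, tr_smul, h1, mul_one, sub_self]
    · rw [sub_add_cancel]
  have f2 : ∀ x ∈ A, ∀ y ∈ B, tr Ω x = 0 → tr Ω y = 0 → tr Ω (x * y) = 0 := by
    intro x hx y hy hx0 hy0
    have := hF [(true, x), (false, y)] (by simp) (by
      intro p hp
      simp only [List.mem_cons, List.not_mem_nil, or_false] at hp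
      rcases hp with rfl | rfl
      · exact ⟨by simpa using hx, hx0⟩
      · exact ⟨by simpa using hy, hy0⟩) (by simp)
    simpa using this
  have f2' : ∀ x ∈ B, ∀ y ∈ A, tr Ω x = 0 → tr Ω y = 0 → tr Ω (x * y) = 0 := by
    intro x hx y hy hx0 hy0
    have := hF [(false, x), (true, y)] (by simp) (by
      intro p hp
      simp only [List.mem_cons, List.not_mem_nil, or_false] at hp
      rcases hp with rfl | rfl
      · exact ⟨by simpa using hx, hx0⟩
      · exact ⟨by simpa using hy, hy0⟩) (by simp)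
    simpa using this
  have f3 : ∀ x ∈ A, ∀ y ∈ B, ∀ z ∈ A, tr Ω x = 0 → tr Ω y = 0 → tr Ω z = 0 →
      tr Ω (x * y * z) = 0 := by
    intro x hx y hy z hz hx0 hy0 hz0
    have := hF [(true, x), (false, y), (true, z)] (by simp) (by
      intro p hp
      simp only [List.mem_cons, List.not_mem_nil, or_false] at hp
      rcases hp with rfl | rfl | rfl
      · exact ⟨by simpa using hx, hx0⟩
      · exact ⟨by simpa using hy, hy0⟩
      · exact ⟨by simpa using hz, hz0⟩) (by simp)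
    rw [mul_assoc]
    simpa using this
  have f3' : ∀ x ∈ B, ∀ y ∈ A, ∀ z ∈ B, tr Ω x = 0 → tr Ω y = 0 → tr Ω z = 0 →
      tr Ω (x * y * z) = 0 := by
    intro x hx y hy z hz hx0 hy0 hz0
    have := hF [(false, x), (true, y), (false, z)] (by simp) (by
      intro p hp
      simp only [List.mem_cons, List.not_mem_nil, or_false] at hp
      rcases hp with rfl | rfl | rfl
      · exact ⟨by simpa using hx, hx0⟩
      · exact ⟨by simpa using hy, hy0⟩
      · exact ⟨by simpa using hz, hz0⟩) (by simp)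
    rw [mul_assoc]
    simpa using this
  have f4 : ∀ x ∈ A, ∀ y ∈ B, ∀ z ∈ A, ∀ w ∈ B, tr Ω x = 0 → tr Ω y = 0 → tr Ω z = 0 →
      tr Ω w = 0 → tr Ω (x * y * z * w) = 0 := by
    intro x hx y hy z hz w hw hx0 hy0 hz0 hw0
    have := hF [(true, x), (false, y), (true, z), (false, w)] (by simp) (by
      intro p hp
      simp only [List.mem_cons, List.not_mem_nil, or_false] at hp
      rcases hp with rfl | rfl | rfl | rfl
      · exact ⟨by simpa using hx, hx0⟩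
      · exact ⟨by simpa using hy, hy0⟩
      · exact ⟨by simpa using hz, hz0⟩
      · exact ⟨by simpa using hw, hw0⟩) (by simp)
    rw [mul_assoc, mul_assoc]
    simpa using this
  -- pairs
  have pair : ∀ x ∈ A, ∀ y ∈ B, tr Ω (x * y) = tr Ω x * tr Ω y := by
    intro x hx y hy
    obtain ⟨x0, hx0, tx0, ex⟩ := cen A x hx
    obtain ⟨y0, hy0, ty0, ey⟩ := cen B y hy
    generalize tr Ω x = α at ex ⊢
    generalize tr Ω y = β at ey ⊢
    rw [ex, ey]
    simp only [mul_add, add_mul, smul_mul_assoc, mul_smul_comm, mul_one, one_mul, tr_add,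
      tr_smul, smul_add, smul_smul, h1, tx0, ty0, f2 x0 hx0 y0 hy0 tx0 ty0]
    ring
  refine ⟨pair a ha b hb, ?_⟩
  obtain ⟨a0, ma0, ta0, ea⟩ := cen A a ha
  obtain ⟨b0, mb0, tb0, eb⟩ := cen B b hb
  obtain ⟨a1, ma1, ta1, ea'⟩ := cen A a' ha'
  obtain ⟨b1, mb1, tb1, eb'⟩ := cen B b' hb'
  generalize tr Ω a = α at ea ⊢
  generalize tr Ω b = β at eb ⊢
  generalize tr Ω a' = α' at ea' ⊢
  generalize tr Ω b' = β' at eb' ⊢
  have g1 : tr Ω (a0 * b0 * a1 * b1) = 0 := f4 a0 ma0 b0 mb0 a1 ma1 b1 mb1 ta0 tb0 ta1 tb1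
  have g2 : tr Ω (a0 * b0 * a1) = 0 := f3 a0 ma0 b0 mb0 a1 ma1 ta0 tb0 ta1
  have g3 : tr Ω (b0 * a1 * b1) = 0 := f3' b0 mb0 a1 ma1 b1 mb1 tb0 ta1 tb1
  have g4 : tr Ω (a0 * b0 * b1) = 0 := by
    rw [mul_assoc, pair a0 ma0 (b0 * b1) (B.mul_mem mb0 mb1), ta0, zero_mul]
  have g5 : tr Ω (a0 * a1 * b1) = 0 := by
    rw [pair (a0 * a1) (A.mul_mem ma0 ma1) b1 mb1, tb1, mul_zero]
  have g6 : tr Ω (a0 * b0) = 0 := f2 a0 ma0 b0 mb0 ta0 tb0
  have g7 : tr Ω (a0 * b1) = 0 := f2 a0 ma0 b1 mb1 ta0 tb1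
  have g8 : tr Ω (a1 * b1) = 0 := f2 a1 ma1 b1 mb1 ta1 tb1
  have g9 : tr Ω (b0 * a1) = 0 := f2' b0 mb0 a1 ma1 tb0 ta1
  rw [ea, eb, ea', eb']
  simp only [mul_add, add_mul, smul_mul_assoc, mul_smul_comm, mul_one, one_mul, tr_add,
      tr_smul, smul_add, smul_smul, h1, ta0, ta1, tb0, tb1, g1, g2, g3, g4, g5, g6, g7, g8, g9]
  ring

theorem t : StmFM.{u, v} := by
  intro 𝓗 _ _ _ E _ _ M Ω S U hR a b a' b' ha hb ha' hb'
  exact moments (tr_one hR.norm_Ω) hR.free ha hb ha' hb'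

/-! ### Inner products by density -/

section VA

variable {E : Type u} [NormedAddCommGroup E] [InnerProductSpace ℝ E]
  {M : VonNeumannAlgebra 𝓗} {Ω : 𝓗} {S U : E → 𝓗 →L[ℂ] 𝓗}

theorem star_U (hR : Realisation M Ω S U) {x : 𝓗 →L[ℂ] 𝓗}
    (hx : x ∈ Algebra.adjoin ℂ (Set.range U)) : star x ∈ Algebra.adjoin ℂ (Set.range U) := by
  induction hx using Algebra.adjoin_induction with
  | mem x hx =>
    obtain ⟨f, rfl⟩ := hx
    rw [hR.U_star]
    exact Algebra.subset_adjoin ⟨-f, rfl⟩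
  | algebraMap r =>
    rw [← algebraMap_star_comm]
    exact Subalgebra.algebraMap_mem _ _
  | add x y _ _ hx hy =>
    rw [star_add]
    exact Subalgebra.add_mem _ hx hy
  | mul x y _ _ hx hy =>
    rw [star_mul]
    exact Subalgebra.mul_mem _ hy hx

theorem star_S (hR : Realisation M Ω S U) {x : 𝓗 →L[ℂ] 𝓗}
    (hx : x ∈ Algebra.adjoin ℂ (Set.range S)) : star x ∈ Algebra.adjoin ℂ (Set.range S) := by
  induction hx using Algebra.adjoin_induction with
  | mem x hx =>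
    obtain ⟨f, rfl⟩ := hx
    rw [(hR.S_sa f).star_eq]
    exact Algebra.subset_adjoin ⟨f, rfl⟩
  | algebraMap r =>
    rw [← algebraMap_star_comm]
    exact Subalgebra.algebraMap_mem _ _
  | add x y _ _ hx hy =>
    rw [star_add]
    exact Subalgebra.add_mem _ hx hy
  | mul x y _ _ hx hy =>
    rw [star_mul]
    exact Subalgebra.mul_mem _ hy hx

theorem U_le (hR : Realisation M Ω S U) {x : 𝓗 →L[ℂ] 𝓗}
    (hx : x ∈ Algebra.adjoin ℂ (Set.range U)) : x ∈ M := by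
  have h : Algebra.adjoin ℂ (Set.range U) ≤ M.toStarSubalgebra.toSubalgebra := by
    apply Algebra.adjoin_le
    rintro _ ⟨f, rfl⟩
    exact hR.U_mem f
  exact h hx

theorem S_le (hR : Realisation M Ω S U) {x : 𝓗 →L[ℂ] 𝓗}
    (hx : x ∈ Algebra.adjoin ℂ (Set.range S)) : x ∈ M := by
  have h : Algebra.adjoin ℂ (Set.range S) ≤ M.toStarSubalgebra.toSubalgebra := by
    apply Algebra.adjoin_le
    rintro _ ⟨f, rfl⟩
    exact hR.S_mem f
  exact h hx

theorem inner_apply (Ω : 𝓗) (x y : 𝓗 →L[ℂ] 𝓗) : inner ℂ (x Ω) (y Ω) = tr Ω (star x * y) := by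
  unfold tr
  rw [_root_.mul_apply_eq_comp, ContinuousLinearMap.star_eq_adjoint,
    ContinuousLinearMap.adjoint_inner_right]

theorem inner_apply_left (Ω : 𝓗) (x : 𝓗 →L[ℂ] 𝓗) : inner ℂ (x Ω) Ω = tr Ω (star x) := by
  have := inner_apply Ω x 1
  rwa [mul_one, ContinuousLinearMap.one_apply] at this

theorem inner_apply_right (Ω : 𝓗) (x : 𝓗 →L[ℂ] 𝓗) : inner ℂ Ω (x Ω) = tr Ω x := rfl

/-- An identity between continuous functions holds on `VA` if it holds on the dense part. -/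
theorem VA_ind {F G : 𝓗 × 𝓗 → ℂ} (hF : Continuous F) (hG : Continuous G)
    (h : ∀ p ∈ Algebra.adjoin ℂ (Set.range U), ∀ q ∈ Algebra.adjoin ℂ (Set.range U),
      F (p Ω, q Ω) = G (p Ω, q Ω)) {ξ η : 𝓗} (hξ : ξ ∈ VA Ω U) (hη : η ∈ VA Ω U) :
    F (ξ, η) = G (ξ, η) := by
  have hcl : IsClosed {p : 𝓗 × 𝓗 | F p = G p} := isClosed_eq hF hG
  have hsub : {ξ : 𝓗 | ∃ a ∈ Algebra.adjoin ℂ (Set.range U), a Ω = ξ} ×ˢ
      {ξ : 𝓗 | ∃ a ∈ Algebra.adjoin ℂ (Set.range U), a Ω = ξ} ⊆ {p : 𝓗 × 𝓗 | F p = G p} := by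
    rintro ⟨x, y⟩ ⟨⟨p, hp, hpx⟩, ⟨q, hq, hqy⟩⟩
    simp only at hpx hqy
    rw [Set.mem_ofPred_eq, ← hpx, ← hqy]
    exact h p hp q hq
  have h2 := closure_minimal hsub hcl
  rw [closure_prod_eq] at h2
  exact h2 (Set.mk_mem_prod hξ hη)

theorem t1 (hFM : StmFM.{u, v}) : StmVA2.{u, v} := by
  intro 𝓗 _ _ _ E _ _ M Ω S U hR ξ η hξ hη b b' c c' R R' hb hb' hc hc' hRc hRc' hcom hcom'
  refine VA_ind (F := fun p : 𝓗 × 𝓗 => inner ℂ (b (R p.1)) (b' (R' p.2)))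
    (G := fun p : 𝓗 × 𝓗 => tr Ω (star b * b' * (c' * star c)) *
      (inner ℂ p.1 Ω * inner ℂ Ω p.2) +
      tr Ω (star b * b') * tr Ω (c' * star c) *
        (inner ℂ p.1 p.2 - inner ℂ p.1 Ω * inner ℂ Ω p.2)) (by fun_prop) (by fun_prop) ?_ hξ hη
  intro p hp q hq
  simp only
  have hpM := U_le hR hp
  have hqM := U_le hR hq
  have e1 : R (p Ω) = (p * c) Ω := by
    have : (R * p) Ω = (p * R) Ω := by rw [hcom p hpM]
    rw [_root_.mul_apply_eq_comp, _root_.mul_apply_eq_comp, hRc] at this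
    exact this
  have e2 : R' (q Ω) = (q * c') Ω := by
    have : (R' * q) Ω = (q * R') Ω := by rw [hcom' q hqM]
    rw [_root_.mul_apply_eq_comp, _root_.mul_apply_eq_comp, hRc'] at this
    exact this
  have e3 : b (R (p Ω)) = (b * (p * c)) Ω := by rw [e1]; rfl
  have e4 : b' (R' (q Ω)) = (b' * (q * c')) Ω := by rw [e2]; rfl
  rw [e3, e4, inner_apply, inner_apply_left, inner_apply_right, inner_apply]
  have e5 : star (b * (p * c)) * (b' * (q * c')) =
      star c * (star p * (star b * b') * q * c') := by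
    rw [star_mul, star_mul]
    simp only [mul_assoc]
  have m1 : star c ∈ M := star_mem (S_le hR hc)
  have m2 : star p * (star b * b') * q * c' ∈ M :=
    mul_mem (mul_mem (mul_mem (star_mem hpM) (mul_mem (star_mem (S_le hR hb)) (S_le hR hb'))) hqM)
      (S_le hR hc')
  rw [e5, hR.tracial _ m1 _ m2]
  have e6 : star p * (star b * b') * q * c' * star c =
      star p * (star b * b') * q * (c' * star c) := by
    simp only [mul_assoc]
  rw [e6, (hFM hR (star_U hR hp) (Subalgebra.mul_mem _ (star_S hR hb) hb') hq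
    (Subalgebra.mul_mem _ hc' (star_S hR hc))).2]
  ring

theorem t2 (hFM : StmFM.{u, v}) : StmVA3.{u, v} := by
  intro 𝓗 _ _ _ E _ _ M Ω S U hR ξ η hξ hη a a' ha ha' f hf
  refine VA_ind (F := fun p : 𝓗 × 𝓗 => inner ℂ (a (S f p.1)) (a' (S f p.2)))
    (G := fun p : 𝓗 × 𝓗 => tr Ω (star a * a') * inner ℂ p.1 p.2)
    (by fun_prop) (by fun_prop) ?_ hξ hη
  intro p hp q hq
  simp only
  have hpM := U_le hR hp
  have hqM := U_le hR hq
  have hSf : S f ∈ Algebra.adjoin ℂ (Set.range S) := Algebra.subset_adjoin ⟨f, rfl⟩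
  have hSM := hR.S_mem f
  have haM := U_le hR ha
  have haM' := U_le hR ha'
  have s1 : tr Ω (S f) = 0 := by
    have := hR.wick f []
    simpa using this
  have s2 : tr Ω (S f * S f) = 1 := by
    have := hR.wick f [f]
    simp only [List.map_cons, List.map_nil, List.prod_cons, List.prod_nil, mul_one,
      List.length_cons, List.length_nil, Nat.reduceAdd, Fin.sum_univ_one] at this
    rw [this]
    simp [hf, tr_one hR.norm_Ω, real_inner_self_eq_norm_sq]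
  have e3 : a (S f (p Ω)) = (a * (S f * p)) Ω := rfl
  have e4 : a' (S f (q Ω)) = (a' * (S f * q)) Ω := rfl
  rw [e3, e4, inner_apply, inner_apply]
  have e5 : star (a * (S f * p)) * (a' * (S f * q)) =
      (star p * S f * (star a * a') * S f) * q := by
    rw [star_mul, star_mul, (hR.S_sa f).star_eq]
    simp only [mul_assoc]
  have m1 : star p * S f * (star a * a') * S f ∈ M :=
    mul_mem (mul_mem (mul_mem (star_mem hpM) hSM) (mul_mem (star_mem haM) haM')) hSM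
  have e6 : q * (star p * S f * (star a * a') * S f) =
      (q * star p) * S f * (star a * a') * S f := by
    simp only [mul_assoc]
  rw [e5, hR.tracial _ m1 _ hqM, e6, (hFM hR (Subalgebra.mul_mem _ hq (star_U hR hp)) hSf
    (Subalgebra.mul_mem _ (star_U hR ha) ha') hSf).2, s1, s2,
    hR.tracial _ hqM _ (star_mem hpM)]
  ring

end VA

end Pool.Agent.Y473.BG.FM
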