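import Pool.Agent.Y325.BG.Stm

/-!
# Project BG: independent Gaussian directions at a base vector
-/

set_option autoImplicit false

open Filter Topology

namespace Pool.Agent.Y473.BG.GL

open Pool.Agent.Y325.BG

universe u v

/-- `exp (-r²/2)` and the polynomial factors of its derivatives. -/
noncomputable def g0 (r : ℝ) : ℝ := Real.exp (-r ^ 2 / 2)

theorem g0_zero : g0 0 = 1 := by
  unfold g0
  simp

theorem hg0 (r : ℝ) : HasDerivAt g0 (-r * g0 r) r := by
  have h1 : HasDerivAt (fun r : ℝ => -r ^ 2 / 2) (-r) r := by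
    have := ((hasDerivAt_pow 2 r).neg).div_const 2
    refine this.congr_deriv ?_
    simp
    ring
  have h2 := h1.exp
  refine h2.congr_deriv ?_
  unfold g0
  ring

/-- complex valued functions `poly * exp (-r²/2)` -/
noncomputable def q0 (r : ℝ) : ℂ := ((g0 r : ℝ) : ℂ)
noncomputable def q1 (r : ℝ) : ℂ := ((-r * g0 r : ℝ) : ℂ)
noncomputable def q2 (r : ℝ) : ℂ := (((r ^ 2 - 1) * g0 r : ℝ) : ℂ)
noncomputable def q3 (r : ℝ) : ℂ := (((3 * r - r ^ 3) * g0 r : ℝ) : ℂ)
noncomputable def q4 (r : ℝ) : ℂ := (((r ^ 4 - 6 * r ^ 2 + 3) * g0 r : ℝ) : ℂ)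

theorem d0 (r : ℝ) : HasDerivAt q0 (q1 r) r := (hg0 r).ofReal_comp

theorem d1 (r : ℝ) : HasDerivAt q1 (q2 r) r := by
  have h := ((hasDerivAt_id r).neg).mul (hg0 r)
  have h2 : HasDerivAt (fun r : ℝ => -r * g0 r) ((r ^ 2 - 1) * g0 r) r := by
    refine h.congr_deriv ?_
    simp
    ring
  exact h2.ofReal_comp

theorem d2 (r : ℝ) : HasDerivAt q2 (q3 r) r := by
  have h := ((hasDerivAt_pow 2 r).sub_const 1).mul (hg0 r)
  have h2 : HasDerivAt (fun r : ℝ => (r ^ 2 - 1) * g0 r) ((3 * r - r ^ 3) * g0 r) r := by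
    refine h.congr_deriv ?_
    simp
    ring
  exact h2.ofReal_comp

theorem d3 (r : ℝ) : HasDerivAt q3 (q4 r) r := by
  have h := (((hasDerivAt_id r).const_mul 3).sub (hasDerivAt_pow 3 r)).mul (hg0 r)
  have h2 : HasDerivAt (fun r : ℝ => (3 * r - r ^ 3) * g0 r)
      ((r ^ 4 - 6 * r ^ 2 + 3) * g0 r) r := by
    refine h.congr_deriv ?_
    simp
    ring
  exact h2.ofReal_comp

theorem q0_zero : q0 0 = 1 := by
  unfold q0
  rw [g0_zero]
  simp

theorem q1_zero : q1 0 = 0 := by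
  unfold q1
  simp

theorem q2_zero : q2 0 = -1 := by
  unfold q2
  rw [g0_zero]
  simp

theorem q4_zero : q4 0 = 3 := by
  unfold q4
  rw [g0_zero]
  simp

theorem cont4 : Continuous q4 := by
  have h : Continuous g0 := by
    unfold g0
    fun_prop
  unfold q4
  fun_prop

theorem cont2 : Continuous q2 := by
  have h : Continuous g0 := by
    unfold g0
    fun_prop
  unfold q2
  fun_prop

section

variable {𝓗 : Type v} [NormedAddCommGroup 𝓗] [InnerProductSpace ℂ 𝓗] [CompleteSpace 𝓗]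
  {E : Type u} [NormedAddCommGroup E] [InnerProductSpace ℝ E] {U : E → 𝓗 →L[ℂ] 𝓗}

theorem L1 (hder : StmDer.{u, v}) (h0 : U 0 = 1) (hadd : ∀ f g, U (f + g) = U f * U g) {g : E}
    {ξ η : 𝓗} (hG : Gen U g ξ η) (w : 𝓗) {k k1 : ℝ → ℂ}
    (hk : ∀ s : ℝ, inner ℂ w (U (s • g) ξ) = k s) (hd : ∀ s, HasDerivAt k (k1 s) s) (s : ℝ) :
    inner ℂ w (U (s • g) η) = -Complex.I * k1 s := by
  have h1 := hder h0 hadd hG s
  have h2 : HasDerivAt (fun s : ℝ => inner ℂ w (U (s • g) ξ)) (inner ℂ w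
      (Complex.I • U (s • g) η)) s := by
    have := (hasDerivAt_const s w).inner ℂ h1
    refine this.congr_deriv ?_
    rw [inner_zero_left, add_zero]
  have h3 : (fun s : ℝ => inner ℂ w (U (s • g) ξ)) = k := funext hk
  rw [h3] at h2
  have h4 := h2.unique (hd s)
  rw [inner_smul_right] at h4
  have h5 : inner ℂ w (U (s • g) η) = -Complex.I * (Complex.I * inner ℂ w (U (s • g) η)) := by
    rw [← mul_assoc, neg_mul, Complex.I_mul_I, neg_neg, one_mul]
  rw [h5, h4]

theorem L2 (hder : StmDer.{u, v}) (h0 : U 0 = 1) (hadd : ∀ f g, U (f + g) = U f * U g) {f : E}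
    {ξ η : 𝓗} (hG : Gen U f ξ η) (w : 𝓗)
    (hk : ∀ t : ℝ, inner ℂ (U (t • f) ξ) w = 0) (t : ℝ) :
    inner ℂ (U (t • f) η) w = 0 := by
  have h1 := hder h0 hadd hG t
  have h2 : HasDerivAt (fun s : ℝ => inner ℂ (U (s • f) ξ) w) (inner ℂ
      (Complex.I • U (t • f) η) w) t := by
    have := h1.inner ℂ (hasDerivAt_const t w)
    refine this.congr_deriv ?_
    rw [inner_zero_right, zero_add]
  have h3 : (fun s : ℝ => inner ℂ (U (s • f) ξ) w) = fun _ => 0 := funext hk
  rw [h3] at h2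
  have h4 := h2.unique (hasDerivAt_const t (0 : ℂ))
  rw [inner_smul_left] at h4
  rcases mul_eq_zero.mp h4 with h5 | h5
  · exfalso
    rw [Complex.conj_I, neg_eq_zero] at h5
    exact Complex.I_ne_zero h5
  · exact h5

end

theorem t (hdom : StmDom.{u, v}) (hder : StmDer.{u, v}) (hker : StmKer.{u, v}) :
    StmGL.{u, v} := by
  intro 𝓗 _ _ _ E _ _ U h0 hadd hstar e ω h1 h2
  have hU0 : ∀ (f : E) (ξ : 𝓗), U ((0 : ℝ) • f) ξ = ξ := by
    intro f ξ
    rw [zero_smul, h0]
    rfl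
  -- one direction
  have hone : ∀ i, ∃ γ θ : 𝓗, Gen U (e i) ω γ ∧ Gen U (e i) γ θ ∧ inner ℂ ω γ = 0 ∧
      inner ℂ γ γ = 1 ∧ ‖θ - ω‖ ≤ 2 := by
    intro i
    have hk : ∀ r : ℝ, inner ℂ ω (U (r • e i) ω) = q0 r := by
      intro r
      have := h1 i 0 r
      rw [hU0, sub_zero] at this
      exact this
    obtain ⟨γ, hγ⟩ := hdom h0 hadd hstar (e i) ω q0 q1 q2 hk d0 d1 cont2.continuousAt
    have c1 := hker h0 hadd hstar hγ hγ 1 (fun t => by rw [one_mul, mul_one]) q0 q1 q2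
      (fun r => by rw [one_apply_eq_self]; exact hk r) d0 d1
    have c2 : ∀ r : ℝ, inner ℂ γ (U (r • e i) γ) = -q2 r := by
      intro r
      have := (c1 r).2
      rwa [one_apply_eq_self] at this
    obtain ⟨θ, hθ⟩ := hdom h0 hadd hstar (e i) γ (fun r => -q2 r) (fun r => -q3 r)
      (fun r => -q4 r) c2 (fun r => (d2 r).neg) (fun r => (d3 r).neg) cont4.neg.continuousAt
    have c3 := hker h0 hadd hstar hθ hθ 1 (fun t => by rw [one_mul, mul_one]) (fun r => -q2 r)
      (fun r => -q3 r) (fun r => -q4 r) (fun r => by rw [one_apply_eq_self]; exact c2 r)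
      (fun r => (d2 r).neg) (fun r => (d3 r).neg)
    have v1 : inner ℂ ω γ = 0 := by
      have := (c1 0).1
      rw [one_apply_eq_self, hU0, q1_zero, mul_zero] at this
      exact this
    have v2 : inner ℂ γ γ = 1 := by
      have := c2 0
      rw [hU0, q2_zero, neg_neg] at this
      exact this
    have v3 : inner ℂ θ θ = 3 := by
      have := (c3 0).2
      rw [one_apply_eq_self, hU0, q4_zero, neg_neg] at this
      exact this
    have v4 : inner ℂ ω θ = 1 := by
      have e1 : ∀ s : ℝ, inner ℂ ω (U (s • e i) γ) = -Complex.I * q1 s :=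
        fun s => L1 hder h0 hadd hγ ω hk d0 s
      have e2 := L1 hder h0 hadd hθ ω (k := fun s => -Complex.I * q1 s)
        (k1 := fun s => -Complex.I * q2 s) e1 (fun s => (d1 s).const_mul _) 0
      rw [hU0, q2_zero] at e2
      rw [e2, ← mul_assoc, neg_mul_neg, Complex.I_mul_I]
      norm_num
    have v5 : inner ℂ ω ω = 1 := by
      have := hk 0
      rw [hU0, q0_zero] at this
      exact this
    have v6 : inner ℂ θ ω = 1 := by
      rw [← inner_conj_symm, v4, map_one]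
    refine ⟨γ, θ, hγ, hθ, v1, v2, ?_⟩
    have v7 : inner ℂ (θ - ω) (θ - ω) = 2 := by
      rw [inner_sub_left, inner_sub_right, inner_sub_right, v3, v4, v5, v6]
      norm_num
    rw [inner_self_eq_norm_sq_to_K] at v7
    have v8 : ‖θ - ω‖ ^ 2 = 2 := by
      have h9 : ((‖θ - ω‖ ^ 2 : ℝ) : ℂ) = ((2 : ℝ) : ℂ) := by
        push_cast
        exact v7
      exact Complex.ofReal_injective h9
    nlinarith [norm_nonneg (θ - ω)]
  choose γ θ hγ hθ v1 v2 v3 using hone
  -- two directions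
  have hw : ∀ i j, i ≠ j → (∀ t : ℝ, inner ℂ (U (t • e i) ω) (γ j) = 0) ∧
      ∀ t : ℝ, inner ℂ (U (t • e i) ω) (θ j - ω) = 0 := by
    intro i j hij
    have k0 : ∀ t s : ℝ, inner ℂ (U (t • e i) ω) (U (s • e j) ω) = q0 t * q0 s := by
      intro t s
      rw [h2 i j hij t s]
      unfold q0 g0
      push_cast
      rfl
    have k1 : ∀ t s : ℝ, inner ℂ (U (t • e i) ω) (U (s • e j) (γ j)) =
        -Complex.I * (q0 t * q1 s) := by
      intro t s
      exact L1 hder h0 hadd (hγ j) (U (t • e i) ω) (k := fun s => q0 t * q0 s)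
        (k1 := fun s => q0 t * q1 s) (k0 t) (fun s => (d0 s).const_mul _) s
    have k2 : ∀ t s : ℝ, inner ℂ (U (t • e i) ω) (U (s • e j) (θ j)) =
        -Complex.I * (-Complex.I * (q0 t * q2 s)) := by
      intro t s
      exact L1 hder h0 hadd (hθ j) (U (t • e i) ω)
        (k := fun s => -Complex.I * (q0 t * q1 s))
        (k1 := fun s => -Complex.I * (q0 t * q2 s)) (k1 t)
        (fun s => ((d1 s).const_mul _).const_mul _) s
    refine ⟨fun t => ?_, fun t => ?_⟩
    · have := k1 t 0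
      rw [hU0, q1_zero, mul_zero, mul_zero] at this
      exact this
    · have e1 := k2 t 0
      have e2 := k0 t 0
      rw [hU0, q2_zero, ← mul_assoc, neg_mul_neg, Complex.I_mul_I] at e1
      rw [hU0, q0_zero] at e2
      rw [inner_sub_right, e1, e2]
      ring
  refine ⟨γ, θ, hγ, hθ, v1, v2, ?_, ?_, v3⟩
  · intro i j hij
    have := L2 hder h0 hadd (hγ i) (γ j) (hw i j hij).1 0
    rwa [hU0] at this
  · intro i j hij
    have a1 := (hw i j hij).2
    have a2 := L2 hder h0 hadd (hγ i) (θ j - ω) a1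
    have a3 := L2 hder h0 hadd (hθ i) (θ j - ω) a2 0
    have a4 := a1 0
    rw [hU0] at a3 a4
    rw [inner_sub_left, a3, a4, sub_zero]

end Pool.Agent.Y473.BG.GL
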