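import Pool.Agent.Y325.BG.Stm

/-!
# Project BG: right multiplication in a finite von Neumann algebra
-/

set_option autoImplicit false

open Filter Topology

namespace Pool.Agent.Y473.BG.R

open Pool.Agent.Y325.BG

universe u v

variable {𝓗 : Type v} [NormedAddCommGroup 𝓗] [InnerProductSpace ℂ 𝓗] [CompleteSpace 𝓗]

/-- Evaluation of the elements of `M` at a vector. -/
noncomputable def ev (M : VonNeumannAlgebra 𝓗) (ξ : 𝓗) : M.toStarSubalgebra →ₗ[ℂ] 𝓗 where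
  toFun x := (x : 𝓗 →L[ℂ] 𝓗) ξ
  map_add' _ _ := rfl
  map_smul' _ _ := rfl

theorem norm_sq_tr (Ω : 𝓗) (y : 𝓗 →L[ℂ] 𝓗) : tr Ω (star y * y) = ((‖y Ω‖ ^ 2 : ℝ) : ℂ) := by
  unfold tr
  rw [ContinuousLinearMap.mul_apply, ContinuousLinearMap.star_eq_adjoint,
    ContinuousLinearMap.adjoint_inner_right, inner_self_eq_norm_sq_to_K]
  push_cast
  rfl

theorem norm_star {M : VonNeumannAlgebra 𝓗} {Ω : 𝓗}
    (h : ∀ x ∈ M, ∀ y ∈ M, tr Ω (x * y) = tr Ω (y * x)) {y : 𝓗 →L[ℂ] 𝓗} (hy : y ∈ M) :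
    ‖(star y) Ω‖ = ‖y Ω‖ := by
  have h1 := norm_sq_tr Ω y
  have h2 := norm_sq_tr Ω (star y)
  rw [star_star, ← h (star y) (star_mem hy) y hy, h1] at h2
  have h3 : ‖y Ω‖ ^ 2 = ‖(star y) Ω‖ ^ 2 := by exact_mod_cast h2
  exact ((sq_eq_sq₀ (norm_nonneg _) (norm_nonneg _)).mp h3).symm

theorem t : StmR.{v} := by
  intro 𝓗 _ _ _ M Ω hd ht a ha
  have hdense : DenseRange (ev M Ω) := by
    have : Set.range (ev M Ω) = {ξ : 𝓗 | ∃ x ∈ M, x Ω = ξ} := by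
      ext ξ
      constructor
      · rintro ⟨x, rfl⟩
        exact ⟨x, x.2, rfl⟩
      · rintro ⟨x, hx, rfl⟩
        exact ⟨⟨x, hx⟩, rfl⟩
    rw [DenseRange, this]
    exact hd
  have hnorm : ∀ x : M.toStarSubalgebra, ‖ev M (a Ω) x‖ ≤ ‖a‖ * ‖ev M Ω x‖ := by
    intro x
    have hx : (x : 𝓗 →L[ℂ] 𝓗) ∈ M := x.2
    show ‖(x : 𝓗 →L[ℂ] 𝓗) (a Ω)‖ ≤ ‖a‖ * ‖(x : 𝓗 →L[ℂ] 𝓗) Ω‖
    have h1 : (x : 𝓗 →L[ℂ] 𝓗) (a Ω) = ((x : 𝓗 →L[ℂ] 𝓗) * a) Ω := rfl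
    rw [h1, ← norm_star ht (mul_mem hx ha), star_mul, ContinuousLinearMap.mul_apply,
      ← norm_star ht hx]
    calc ‖(star a) ((star (x : 𝓗 →L[ℂ] 𝓗)) Ω)‖ ≤ ‖star a‖ * ‖(star (x : 𝓗 →L[ℂ] 𝓗)) Ω‖ :=
          ContinuousLinearMap.le_opNorm _ _
      _ = _ := by rw [_root_.norm_star]
  set R : 𝓗 →L[ℂ] 𝓗 := (ev M (a Ω)).extendOfNorm (ev M Ω) with hR
  have hval : ∀ x ∈ M, R (x Ω) = x (a Ω) := by
    intro x hx
    exact LinearMap.extendOfNorm_eq hdense ⟨‖a‖, hnorm⟩ (⟨x, hx⟩ : M.toStarSubalgebra)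
  refine ⟨R, ?_, ?_⟩
  · have := hval 1 (one_mem M)
    simpa using this
  · intro y hy
    have h1 : Set.EqOn (R * y : 𝓗 →L[ℂ] 𝓗) (y * R : 𝓗 →L[ℂ] 𝓗) {ξ : 𝓗 | ∃ x ∈ M, x Ω = ξ} := by
      rintro ξ ⟨x, hx, rfl⟩
      rw [ContinuousLinearMap.mul_apply, ContinuousLinearMap.mul_apply, hval x hx]
      have h2 : y (x Ω) = (y * x) Ω := rfl
      rw [h2, hval (y * x) (mul_mem hy hx)]
      rfl
    exact ContinuousLinearMap.coeFn_injective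
      (Continuous.ext_on hd (R * y).continuous (y * R).continuous h1)

end Pool.Agent.Y473.BG.R
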